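import Pool.Agent.Y590.SPK.LevL

set_option autoImplicit false

/-!
# The class is big (project SP of helper184)
-/

open Set Topology Filter
open scoped ContDiff

namespace Pool.Agent.Y590.SPK

open Pool.Agent.Y184.SP Pool.Agent.Y375.SP

variable {z v : E}

/-- `chi L_p` extends at the points of the first chart -/
theorem ex_Lg0 {p : ℂ → ℂ} (hp : ContDiff ℝ ∞ p) (hp0 : ∀ t, p t = 0 → t = 0)
    (hz : z ∈ V 0) : ExtAt (fun t => chi t.1 * Lg p t) 0 z := by
  rcases cases_x z.1 with ⟨l, hl, hx⟩ | ⟨hL, hx⟩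
  · have hN : ContDiff ℝ ∞ (fun t : E => ‖t.2 - (t.1 - l)‖ ^ 2 + ‖p (t.1 - l)‖ ^ 2) :=
      (cd_nsq (contDiff_snd.sub (contDiff_fst.sub contDiff_const))).add
        (cd_nsq (hp.comp (contDiff_fst.sub contDiff_const)))
    have h0 : ‖z.2 - (z.1 - l)‖ ^ 2 + ‖p (z.1 - l)‖ ^ 2 ≠ 0 := by
      have := add_sq_ne (a := z.2 - (z.1 - l)) (b := p (z.1 - l)) (k := 1) ?_ one_pos
      · rwa [one_mul] at this
      · by_contra hc
        push Not at hc
        have h1 := hp0 _ hc.2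
        rw [h1, sub_zero] at hc
        have hz' : z.1 ∉ Lam ∨ z.2 ≠ 0 := hz
        rcases hz' with h2 | h2
        · rw [sub_eq_zero.1 h1] at h2
          exact h2 hl
        · exact h2 hc.1
    refine ⟨fun t => bump (t.1 - l) *
      Real.log ((‖t.2 - (t.1 - l)‖ ^ 2 + ‖p (t.1 - l)‖ ^ 2) / (1 + ‖t.2‖ ^ 2)),
      sm_mul (bump_sm l z) (sm_log (sm_div (sm_of hN z) (y_sm z) (by positivity)) ?_), ?_⟩
    · exact div_ne_zero h0 (by positivity)
    · filter_upwards [(tr_fst_cont 0 z).eventually (near_eq hx)] with t ht _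
      have ht' : ‖t.1 - l‖ < 1 / 2 := ht
      show _ = chi t.1 * Lg p t
      unfold Lg
      rw [chi_eq hl ht', red_eq hl ht']
  · exact ex_chi_far (j := 0) (z := z) hx _

theorem ex_P30 (hz : z ∈ V 0) : ExtAt (fun t => chi t.1 * L2 t) 0 z := by
  have h := ex_Lg0 (p := fun t => t ^ 2) (contDiff_id.pow 2) (fun t ht => by simpa using ht) hz
  exact ex_congr' h fun t _ => by rw [L2_eq]

theorem ex_P40 (hz : z ∈ V 0) : ExtAt (fun t => chi t.1 * L1 t) 0 z := by
  have h := ex_Lg0 (p := fun t => t) contDiff_id (fun t ht => ht) hz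
  exact ex_congr' h fun t _ => by rw [L1_eq]

/-- the potential of the current -/
noncomputable def Ub (G : ℂ → ℝ) (K δ : ℝ) (z : E) : ℝ :=
  δ * Psi G K z + (((5 / 2 * Real.log (‖z.2‖ ^ 2) + (1 / 2 - δ * K) * Real.log (1 + ‖z.2‖ ^ 2)) +
    (-(1 - δ * K)) * G z.1) + 0)

theorem Ub_eq (G : ℂ → ℝ) (K δ : ℝ) (z : E) : Ub G K δ z - Phi z =
    5 / 2 * P1 z + (δ * (chi z.1 * L1 z) - (1 - δ) * (chi z.1 * L2 z) - P2 G z) := by
  unfold Ub Psi Phi P1 P2
  ring

theorem Ub_eq' (G : ℂ → ℝ) (K δ : ℝ) (z : E) : Ub G K δ z - Phi z =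
    (far G 0 z - Phi z) + δ * (chi z.1 * L1 z + chi z.1 * L2 z) := by
  unfold Ub Psi Phi far
  ring

theorem Psi_sm {G h : ℂ → ℝ} {c : ℝ} (hG : IsGreen G h c) (K : ℝ) (hz : z ∈ W) :
    SmAt (Psi G K) z := by
  have h1 : SmAt (fun t : E => G t.1) z := by
    refine sm_fst ?_
    filter_upwards [Lam_open hz.1] with x hx
    exact hG.smooth x hx
  have h2 := sm_of_ex (ex_P4 (not_onA hz)) hz
  have h3 := sm_of_ex (ex_P3 (not_onA hz)) hz
  refine sm_congr (sm_add (sm_add (sm_mul (sm_const (-K) z) h1)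
    (sm_mul (sm_const K z) (ly_sm z))) (sm_add h2 h3)) ?_
  refine Eventually.of_forall fun t => ?_
  show Psi G K t = _
  unfold Psi
  ring

theorem tendsto_logy (x : ℂ) (a C : ℝ) (ha : 0 < a) :
    Tendsto (fun t : E => a * Real.log (‖t.2‖ ^ 2) + C) (𝓝[W] ((x, 0) : E)) atBot := by
  have h1 : Tendsto (fun t : E => ‖t.2‖ ^ 2) (𝓝[W] ((x, 0) : E)) (𝓝[>] 0) := by
    rw [tendsto_nhdsWithin_iff]
    constructor
    · have hc : ContinuousAt (fun t : E => ‖t.2‖ ^ 2) ((x, 0) : E) := by fun_prop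
      have h2 := hc.tendsto
      simp only [norm_zero, ne_eq, OfNat.ofNat_ne_zero, not_false_eq_true, zero_pow] at h2
      exact h2.mono_left nhdsWithin_le_nhds
    · filter_upwards [self_mem_nhdsWithin] with t ht
      have h3 : 0 < ‖t.2‖ := norm_pos_iff.2 ht.2
      show 0 < ‖t.2‖ ^ 2
      positivity
  have h2 := Real.tendsto_log_nhdsGT_zero.comp h1
  exact tendsto_atBot_add_const_right _ C (Tendsto.const_mul_atBot ha h2)

theorem ex_le {u : E → ℝ} (h : ExtAt u 0 z) : ∃ C, ∀ᶠ t in 𝓝 z, t ∈ W → u t ≤ C := by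
  obtain ⟨f, hf, hfu⟩ := h
  refine ⟨f z + 1, ?_⟩
  filter_upwards [(sm_cont hf).eventually_lt_const (lt_add_one (f z)), hfu] with t h1 h2 hW
  have h3 : f t = u t := h2 hW
  linarith

theorem pow4 {x y : ℂ} (h : ‖y - x‖ ≤ 1) : ‖y‖ ^ 4 ≤ 8 * (‖y - x‖ ^ 2 + ‖x‖ ^ 4) := by
  have h1 : ‖y‖ ≤ ‖y - x‖ + ‖x‖ := by
    have := norm_add_le (y - x) x
    rwa [sub_add_cancel] at this
  have ha := norm_nonneg (y - x)
  have hb := norm_nonneg x
  set a := ‖y - x‖
  set b := ‖x‖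
  have h2 : ‖y‖ ^ 4 ≤ (a + b) ^ 4 := pow_le_pow_left₀ (norm_nonneg _) h1 4
  have h3 : (a + b) ^ 4 ≤ 8 * (a ^ 4 + b ^ 4) := by
    nlinarith [sq_nonneg (a - b), sq_nonneg (a ^ 2 - b ^ 2), mul_nonneg ha hb,
      mul_nonneg (mul_nonneg ha hb) (sq_nonneg (a - b)), sq_nonneg (a + b)]
  have h4 : a ^ 4 ≤ a ^ 2 := pow_le_pow_of_le_one ha h (by norm_num)
  linarith

theorem bot_x {G h : ℂ → ℝ} {c : ℝ} (hG : IsGreen G h c) (K δ : ℝ) {x : ℂ} (hx : x ∉ Lam) :
    Tendsto (fun t => Ub G K δ t - Phi t) (𝓝[W] ((x, 0) : E)) atBot := by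
  have hV : ((x, 0) : E) ∈ V 0 := Or.inl hx
  obtain ⟨C, hC⟩ := ex_le (ex_sub (ex_sub (ex_mul (ex_const δ) (ex_P40 hV))
    (ex_mul (ex_const (1 - δ)) (ex_P30 hV))) (ex_P2 (j := 0) hG))
  refine tendsto_atBot_mono' _ ?_ (tendsto_logy x (5 / 2) C (by norm_num))
  filter_upwards [nhdsWithin_le_nhds hC, self_mem_nhdsWithin] with t h1 hW
  have h2 := h1 hW
  have h3 : 0 ≤ Real.log (1 + ‖t.2‖ ^ 2) := Real.log_nonneg (by nlinarith [sq_nonneg ‖t.2‖])
  rw [Ub_eq]
  unfold P1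
  linarith

theorem bot_0 {G h : ℂ → ℝ} {c : ℝ} (hG : IsGreen G h c) (K : ℝ) {δ : ℝ} (hδ : 0 < δ)
    (hδ1 : δ ≤ 1) :
    Tendsto (fun t => Ub G K δ t - Phi t) (𝓝[W] ((0, 0) : E)) atBot := by
  obtain ⟨C, hC⟩ := ex_le (ex_sub (ex_const 0) (ex_P2 (j := 0) (z := ((0, 0) : E)) hG))
  refine tendsto_atBot_mono' _ ?_ (tendsto_logy 0 (1 / 2) (C + Real.log 8 + 1) (by norm_num))
  have e1 : ∀ᶠ t : E in 𝓝[W] ((0, 0) : E), ‖t.1‖ < 1 / 8 := by
    have hc : ContinuousAt (fun t : E => ‖t.1‖) ((0, 0) : E) := by fun_prop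
    exact nhdsWithin_le_nhds (hc.eventually_lt_const (by simp))
  have e2 : ∀ᶠ t : E in 𝓝[W] ((0, 0) : E), ‖t.2‖ < 1 / 8 := by
    have hc : ContinuousAt (fun t : E => ‖t.2‖) ((0, 0) : E) := by fun_prop
    exact nhdsWithin_le_nhds (hc.eventually_lt_const (by simp))
  filter_upwards [nhdsWithin_le_nhds hC, self_mem_nhdsWithin, e1, e2] with t h1 hW h3 h4
  have h2 := h1 hW
  have hr : red t.1 = t.1 := red_eq_self (by linarith)
  have hc : chi t.1 = 1 := chi_one (by rw [hr]; exact h3.le)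
  have hx0 : t.1 ≠ 0 := fun h0 => hW.1 (by rw [h0]; exact Lam_zero)
  have hx : 0 < ‖t.1‖ := norm_pos_iff.2 hx0
  have hy : 0 < ‖t.2‖ := norm_pos_iff.2 hW.2
  have hw : ‖t.2 - t.1‖ ≤ 1 / 4 := by
    have := norm_sub_le t.2 t.1
    linarith
  have hw0 := norm_nonneg (t.2 - t.1)
  have hl1 : 0 ≤ Real.log (1 + ‖t.2‖ ^ 2) := Real.log_nonneg (by nlinarith [sq_nonneg ‖t.2‖])
  have hl2 : Real.log (1 + ‖t.2‖ ^ 2) ≤ 1 := by
    have := Real.log_le_sub_one_of_pos (x := 1 + ‖t.2‖ ^ 2) (by positivity)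
    nlinarith
  have hly : Real.log (‖t.2‖ ^ 2) ≤ 0 := Real.log_nonpos (by positivity) (by nlinarith)
  have hL1 : L1 t ≤ 0 := by
    unfold L1
    rw [hr]
    apply Real.log_nonpos (by positivity)
    rw [div_le_one (by positivity)]
    nlinarith [sq_nonneg ‖t.2‖]
  have hL2 : 2 * Real.log (‖t.2‖ ^ 2) - Real.log 8 - 1 ≤ L2 t := by
    unfold L2
    rw [hr, Real.log_div (by positivity) (by positivity)]
    have h5 := pow4 (x := t.1) (y := t.2) (by linarith)
    have h6 : Real.log (‖t.2‖ ^ 4) ≤ Real.log (8 * (‖t.2 - t.1‖ ^ 2 + ‖t.1‖ ^ 4)) :=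
      Real.log_le_log (by positivity) h5
    rw [Real.log_mul (by norm_num) (by positivity)] at h6
    have h7 : Real.log (‖t.2‖ ^ 4) = 2 * Real.log (‖t.2‖ ^ 2) := by
      rw [Real.log_pow, Real.log_pow]
      push_cast
      ring
    linarith
  rw [Ub_eq, hc]
  unfold P1
  have h8 : δ * L1 t ≤ 0 := mul_nonpos_of_nonneg_of_nonpos hδ.le hL1
  have h9 : (1 - δ) * (2 * Real.log (‖t.2‖ ^ 2) - Real.log 8 - 1) ≤ (1 - δ) * L2 t :=
    mul_le_mul_of_nonneg_left hL2 (by linarith)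
  have h10 : δ * Real.log (‖t.2‖ ^ 2) ≤ 0 := mul_nonpos_of_nonneg_of_nonpos hδ.le hly
  have h11 : 0 ≤ Real.log 8 := Real.log_nonneg (by norm_num)
  have h12 : 0 ≤ δ * Real.log 8 := by positivity
  have h13 : 0 - P2 G t ≤ C := h2
  nlinarith

/-- the class is big -/
theorem big : StBig := by
  intro G h c hG K hK
  set δ : ℝ := min (1 / 4) (1 / (4 * K)) with hδ
  have hδ0 : 0 < δ := lt_min (by norm_num) (by positivity)
  have hδ1 : δ ≤ 1 / 4 := min_le_left _ _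
  have hδK : δ * K ≤ 1 / 4 := by
    have h1 : δ ≤ 1 / (4 * K) := min_le_right _ _
    calc δ * K ≤ 1 / (4 * K) * K := mul_le_mul_of_nonneg_right h1 hK.le
      _ = 1 / 4 := by field_simp
  refine ⟨δ, Ub G K δ, hδ0, ?_, ?_, ?_, ?_⟩
  · intro x y l hl
    unfold Ub Psi chi L1 L2
    simp only
    rw [hG.per x l hl, red_add hl]
  · intro z hz v
    have c1 : ContDiffAt ℝ 2 (Psi G K) z := (sm_self (Psi_sm hG K hz)).of_le two_le
    have c1' : ContDiffAt ℝ 2 (fun t => δ * Psi G K t) z := contDiffAt_const.mul c1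
    have c3 : ContDiffAt ℝ 2 (fun t : E => G t.1) z :=
      ((hG.smooth _ hz.1).of_le two_le).comp z contDiffAt_fst
    have c2 : ContDiffAt ℝ 2 (fun t : E => ((5 / 2 * Real.log (‖t.2‖ ^ 2) +
        (1 / 2 - δ * K) * Real.log (1 + ‖t.2‖ ^ 2)) + (-(1 - δ * K)) * G t.1) + 0) z :=
      (((contDiffAt_const.mul ((sm_self (lyy_sm hz.2)).of_le two_le)).add
        (contDiffAt_const.mul ((sm_self (ly_sm z)).of_le two_le))).add
        (contDiffAt_const.mul c3)).add contDiffAt_const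
    have h1 : lev (Ub G K δ) z v = lev (fun t => δ * Psi G K t) z v + _ := lv_add c1' c2
    rw [h1, lv_mul δ c1]
    have h2 := lv_R (v := v) hG (5 / 2) 0 (α := 1 - δ * K) (b := 1 / 2 - δ * K)
      (by linarith) (by linarith) hz
    linarith
  · intro j z hz hA
    have h1 := ex_add (ex_far hG 0 hA) (ex_mul (ex_const δ) (ex_add (ex_P4 hA) (ex_P3 hA)))
    exact ex_congr' h1 fun t _ => Ub_eq' G K δ t
  · intro j z hz hA
    obtain ⟨hj, hy⟩ := hA
    have hT : Tendsto (tr j) (𝓝[{z' | tr j z' ∈ W}] z) (𝓝[W] (tr j z)) := by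
      rw [tendsto_nhdsWithin_iff]
      exact ⟨((tr_smooth hj z).continuousAt.tendsto).mono_left nhdsWithin_le_nhds,
        self_mem_nhdsWithin⟩
    have hz' : tr j z = ((tr j z).1, 0) := Prod.ext rfl hy
    have key : Tendsto (fun t => Ub G K δ t - Phi t) (𝓝[W] (tr j z)) atBot := by
      by_cases hx : (tr j z).1 ∈ Lam
      · have hx0 : (tr j z).1 = 0 := by
          have hn : ‖(tr j z).1‖ < 1 / 8 := by
            have hj' : j = 0 ∨ j = 2 ∨ j = 3 ∨ j = 4 := by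
              fin_cases j
              · exact Or.inl rfl
              · exact absurd rfl hj
              · exact Or.inr (Or.inl rfl)
              · exact Or.inr (Or.inr (Or.inl rfl))
              · exact Or.inr (Or.inr (Or.inr rfl))
            rcases hj' with rfl | rfl | rfl | rfl
            · exfalso
              have h0 : z.1 ∉ Lam ∨ z.2 ≠ 0 := hz
              rcases h0 with h0 | h0
              · exact h0 hx
              · exact h0 hy
            · exact hz.1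
            · exact hz.1
            · exact hz.1
          have h1 := red_eq_self (x := (tr j z).1) (by linarith)
          rw [← h1]
          exact red_eq_zero.2 hx
        rw [hz', hx0]
        exact bot_0 hG K hδ0 (by linarith)
      · rw [hz']
        exact bot_x hG K δ hx
    exact key.comp hT

end Pool.Agent.Y590.SPK
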