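import Pool.Agent.Y590.SPK.ExtL
import Pool.Agent.Helper684.GX.Ergo.Calc2

set_option autoImplicit false

/-!
# Levi forms (project SP of helper184)
-/

open Set Topology Filter
open scoped ContDiff

namespace Pool.Agent.Y590.SPK

open Pool.Agent.Y184.SP Pool.Agent.Y375.SP

variable {ρ σ : E → ℝ} {z v : E}

theorem lv_add (h1 : ContDiffAt ℝ 2 ρ z) (h2 : ContDiffAt ℝ 2 σ z) :
    lev (fun t => ρ t + σ t) z v = lev ρ z v + lev σ z v :=
  Pool.Agent.Y625.SP.lev_thm.2.2.1 _ _ _ _ h1 h2

theorem lv_mul (a : ℝ) (h1 : ContDiffAt ℝ 2 ρ z) :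
    lev (fun t => a * ρ t) z v = a * lev ρ z v :=
  Pool.Agent.Y625.SP.lev_thm.2.2.2 _ _ _ _ h1

theorem lv_congr (h : ρ =ᶠ[𝓝 z] σ) : lev ρ z v = lev σ z v := by
  unfold lev
  have hc : Tendsto (fun ζ : ℂ => z + ζ • v) (𝓝 0) (𝓝 z) := by
    have h1 : ContinuousAt (fun ζ : ℂ => z + ζ • v) 0 := by fun_prop
    have h2 := h1.tendsto
    rwa [zero_smul, add_zero] at h2
  have h3 : (fun ζ : ℂ => ρ (z + ζ • v)) =ᶠ[𝓝 0] fun ζ => σ (z + ζ • v) := h.comp_tendsto hc
  exact (InnerProductSpace.laplacian_congr_nhds h3).self_of_nhds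

theorem lv_fst {F : ℂ → ℝ} (hF : ContDiffAt ℝ 2 F z.1) :
    lev (fun t => F t.1) z v = ‖v.1‖ ^ 2 * Laplacian.laplacian F z.1 := by
  have hφ : ContDiffAt ℝ 2 (fun t : E => F t.1) z := hF.comp z contDiffAt_fst
  have h1 : lev (fun t => F t.1) z v = lev (fun t => F t.1) z (v.1, 0) := rfl
  have hc : AnalyticAt ℂ (fun x : ℂ => (x, z.2)) z.1 := by fun_prop
  have hd : deriv (fun x : ℂ => (x, z.2)) z.1 = (1, 0) := by
    have h2 : HasDerivAt (fun x : ℂ => (x, z.2)) (1, 0) z.1 :=
      (hasDerivAt_id z.1).prodMk (hasDerivAt_const z.1 z.2)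
    exact h2.deriv
  have h3 := lap_curve (φ := fun t : E => F t.1) hc hφ
  rw [hd] at h3
  have h4 : Laplacian.laplacian F z.1 = S (fun t : E => F t.1) z (1, 0) (1, 0) := h3
  rw [h1, lev_eq hφ, h4]
  have h5 : ((v.1, 0) : E) = v.1 • ((1, 0) : E) := by
    rw [Prod.smul_mk, smul_eq_mul, mul_one, smul_zero]
  rw [h5]
  exact Pool.Agent.Helper684.GX.Ergo.lapK2_quad (fderiv ℝ (fderiv ℝ (fun t : E => F t.1)) z) v.1 (1, 0)

theorem lv_logy (hz : z.2 ≠ 0) : lev (fun t => Real.log (‖t.2‖ ^ 2)) z v = 0 := by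
  have h0 : AnalyticAt ℂ (fun ζ : ℂ => z.2 + ζ * v.2) 0 := by fun_prop
  have h := h0.harmonicAt_log_norm (by simpa using hz)
  have h1 := h.2.self_of_nhds
  have h2 := InnerProductSpace.laplacian_smul (2 : ℝ) h.1
  unfold lev
  have h3 : (fun ζ : ℂ => Real.log (‖(z + ζ • v).2‖ ^ 2)) =
      (2 : ℝ) • fun ζ : ℂ => Real.log ‖z.2 + ζ * v.2‖ := by
    funext ζ
    rw [Real.log_pow]
    rfl
  rw [h3, h2, h1]
  simp

theorem lv_log1 : 0 ≤ lev (fun t => Real.log (1 + ‖t.2‖ ^ 2)) z v := by
  have hc : ContDiffAt ℝ 2 (fun ζ : ℂ => Real.log (1 + ‖(z + ζ • v).2‖ ^ 2)) 0 :=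
    Pool.Agent.Y625.SP.comp_line v ((sm_self (ly_sm z)).of_le two_le)
  set n : ℝ := 1 + ‖z.2‖ ^ 2 with hn
  have hn0 : 0 < n := by positivity
  have key : ∀ e : ℂ, iteratedFDeriv ℝ 2
      (fun ζ : ℂ => Real.log (1 + ‖(z + ζ • v).2‖ ^ 2)) 0 ![e, e] =
      (2 * ‖e * v.2‖ ^ 2 * n - 4 * (star z.2 * (e * v.2)).re ^ 2) / n ^ 2 := by
    intro e
    set p : ℝ := (star z.2 * (e * v.2)).re with hp
    set q : ℝ := ‖e * v.2‖ ^ 2 with hq
    have hN : ∀ s : ℝ, 1 + ‖(z + (s • e) • v).2‖ ^ 2 = n + 2 * s * p + s ^ 2 * q := by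
      intro s
      rw [hn, hp, hq]
      have h1 : (z + (s • e) • v).2 = z.2 + (s : ℂ) * (e * v.2) := by
        show z.2 + ((s : ℂ) * e) * v.2 = _
        ring
      rw [h1]
      generalize e * v.2 = w
      rw [Complex.sq_norm, Complex.sq_norm, Complex.sq_norm, Complex.normSq_apply,
        Complex.normSq_apply, Complex.normSq_apply]
      simp
      ring
    have hpos : ∀ s : ℝ, n + 2 * s * p + s ^ 2 * q ≠ 0 := by
      intro s
      rw [← hN s]
      positivity
    have hd : ∀ s : ℝ, HasDerivAt (fun s : ℝ => n + 2 * s * p + s ^ 2 * q)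
        (2 * p + 2 * s * q) s := by
      intro s
      have h1 : HasDerivAt (fun s : ℝ => n + 2 * s * p + s ^ 2 * q)
        (0 + 2 * 1 * p + (2 * s ^ (2 - 1) * 1) * q) s :=
        ((hasDerivAt_const s n).add (((hasDerivAt_id s).const_mul 2).mul_const p)).add
          (((hasDerivAt_id s).pow 2).mul_const q)
      convert h1 using 1
      ring
    refine Pool.Agent.Y625.SP.lapline hc e
      (ψ := fun s => (2 * p + 2 * s * q) / (n + 2 * s * p + s ^ 2 * q)) ?_ ?_
    · refine Eventually.of_forall fun s => ?_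
      have h1 : (fun s : ℝ => Real.log (1 + ‖(z + (s • e) • v).2‖ ^ 2)) =
        fun s => Real.log (n + 2 * s * p + s ^ 2 * q) := by
        funext s
        rw [hN s]
      rw [h1]
      exact (hd s).log (hpos s)
    · have h2 : HasDerivAt (fun s : ℝ => 2 * p + 2 * s * q) (0 + 2 * 1 * q) 0 :=
        (hasDerivAt_const 0 (2 * p)).add (((hasDerivAt_id (0 : ℝ)).const_mul 2).mul_const q)
      have h3 := h2.div (hd 0) (hpos 0)
      have h4 : 2 * q * n - 4 * p ^ 2 = (0 + 2 * 1 * q) * (n + 2 * 0 * p + 0 ^ 2 * q) -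
        (2 * p + 2 * 0 * q) * (2 * p + 2 * 0 * q) := by ring
      have h5 : n ^ 2 = (n + 2 * 0 * p + 0 ^ 2 * q) ^ 2 := by ring
      rw [h4, h5]
      exact h3
  unfold lev
  rw [InnerProductSpace.laplacian_eq_iteratedFDeriv_complexPlane]
  simp only
  rw [key 1, key Complex.I]
  have h1 : (star z.2 * (1 * v.2)).re ^ 2 + (star z.2 * (Complex.I * v.2)).re ^ 2 =
      ‖z.2‖ ^ 2 * ‖v.2‖ ^ 2 := by
    rw [Complex.sq_norm, Complex.sq_norm, Complex.normSq_apply, Complex.normSq_apply]
    simp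
    ring
  have h2 : ‖Complex.I * v.2‖ ^ 2 = ‖v.2‖ ^ 2 := by
    rw [norm_mul, Complex.norm_I, one_mul]
  rw [h2, one_mul, ← add_div]
  apply div_nonneg _ (by positivity)
  rw [one_mul] at h1
  have h3 : 0 ≤ ‖v.2‖ ^ 2 := by positivity
  nlinarith

/-- the sum which appears in the two theorems -/
theorem lv_R {G h : ℂ → ℝ} {c : ℝ} (hG : IsGreen G h c) {α b : ℝ} (s A : ℝ) (hα : 0 ≤ α)
    (hb : 0 ≤ b) (hz : z ∈ W) :
    0 ≤ lev (fun t => ((s * Real.log (‖t.2‖ ^ 2) + b * Real.log (1 + ‖t.2‖ ^ 2)) +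
      (-α) * G t.1) + A) z v := by
  have c1 : ContDiffAt ℝ 2 (fun t : E => Real.log (‖t.2‖ ^ 2)) z :=
    (sm_self (lyy_sm hz.2)).of_le two_le
  have c2 : ContDiffAt ℝ 2 (fun t : E => Real.log (1 + ‖t.2‖ ^ 2)) z :=
    (sm_self (ly_sm z)).of_le two_le
  have c3' : ContDiffAt ℝ 2 G z.1 := (hG.smooth _ hz.1).of_le two_le
  have c3 : ContDiffAt ℝ 2 (fun t : E => G t.1) z := c3'.comp z contDiffAt_fst
  have c1' : ContDiffAt ℝ 2 (fun t : E => s * Real.log (‖t.2‖ ^ 2)) z := contDiffAt_const.mul c1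
  have c2' : ContDiffAt ℝ 2 (fun t : E => b * Real.log (1 + ‖t.2‖ ^ 2)) z :=
    contDiffAt_const.mul c2
  have c3'' : ContDiffAt ℝ 2 (fun t : E => (-α) * G t.1) z := contDiffAt_const.mul c3
  have c4 : ContDiffAt ℝ 2 (fun _ : E => A) z := contDiffAt_const
  rw [lv_add ((c1'.add c2').add c3'') c4, lv_add (c1'.add c2') c3'', lv_add c1' c2',
    lv_mul s c1, lv_mul b c2, lv_mul (-α) c3, lv_logy hz.2, lv_fst c3', hG.lap _ hz.1]
  have h1 : lev (fun _ : E => A) z v = 0 := by
    have := lv_mul (z := z) (v := v) 0 c4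
    rw [zero_mul] at this
    have h2 := lv_fst (F := fun _ => A) (z := z) (v := v) contDiffAt_const
    rw [h2]
    have h3 : Laplacian.laplacian (fun _ : ℂ => A) z.1 = 0 := by
      simp
    rw [h3, mul_zero]
  rw [h1]
  have h5 := lv_log1 (z := z) (v := v)
  have h6 := hG.pos
  have h7 : 0 ≤ b * lev (fun t => Real.log (1 + ‖t.2‖ ^ 2)) z v := mul_nonneg hb h5
  have h8 : 0 ≤ α * (‖v.1‖ ^ 2 * c) := by positivity
  linarith

/-! ### Smoothness on `W` -/

theorem W_nhds (hz : z ∈ W) : ∀ᶠ t in 𝓝 z, t ∈ W := by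
  filter_upwards [(continuous_fst.tendsto z).eventually (Lam_open hz.1),
    (continuous_snd.continuousAt (x := z)).eventually_ne hz.2] with t h1 h2
  exact ⟨h1, h2⟩

theorem sm_of_ex {u : E → ℝ} (h : ExtAt u 0 z) (hz : z ∈ W) : SmAt u z := by
  obtain ⟨f, hf, hfu⟩ := h
  refine sm_congr hf ?_
  filter_upwards [hfu, W_nhds hz] with t h1 h2
  exact (h1 h2).symm

theorem Phi_sm (hz : z ∈ W) : SmAt Phi z := by
  filter_upwards [W_nhds hz] with t ht
  exact Phi_smooth ht.1

theorem sm_of_sub {u : E → ℝ} (h : ExtAt (fun t => u t - Phi t) 0 z) (hz : z ∈ W) : SmAt u z := by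
  refine sm_congr (sm_add (sm_of_ex h hz) (Phi_sm hz)) ?_
  refine Eventually.of_forall fun t => ?_
  show u t = u t - Phi t + Phi t
  ring

theorem not_onA (hz : z ∈ W) : ¬ onA 0 z := fun h => hz.2 h.2

theorem nm_nonneg (z v : E) : 0 ≤ nm z v := by
  unfold nm
  positivity

/-- the class is nef -/
theorem nef (hNear : StNear) (hComp : StComp) (hMax : StMax) : StNef := by
  intro G h c hG ε hε
  obtain ⟨k, C, η, hk, hk1, hC, hη, hN⟩ := hNear ε hε
  obtain ⟨A, η1, η2, h1, h12, h2, hA, hB⟩ := hComp G h c hG k C η hk hk1 hC hη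
  obtain ⟨m, hm, hm0, hm1, hmm⟩ := hMax
  set cm : E → ℝ := fun z => far G A z + m (near k C z - far G A z) with hcm
  set U : E → ℝ := fun z => if ‖z.2‖ < η then cm z else far G A z with hU
  have U1 : ∀ t : E, ‖t.2‖ < η → U t = cm t := fun t ht => if_pos ht
  have U0 : ∀ t ∈ W, ‖t.2‖ < η1 → U t = near k C t := by
    intro t hW ht
    rw [U1 t (by linarith), hcm]
    have h3 := hA t hW ht.le
    simp only
    rw [hm1 _ (by linarith)]
    ring
  have U2 : ∀ t ∈ W, η2 < ‖t.2‖ → U t = far G A t := by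
    intro t hW ht
    by_cases h3 : ‖t.2‖ < η
    · rw [U1 t h3, hcm]
      have h4 := hB t hW ht.le h3.le
      simp only
      rw [hm0 _ (by linarith), add_zero]
    · exact if_neg h3
  have farC : ∀ z ∈ W, ContDiffAt ℝ 2 (far G A) z := fun z hz =>
    (sm_self (sm_of_sub (ex_far hG A (not_onA hz)) hz)).of_le two_le
  have nearC : ∀ z ∈ W, ContDiffAt ℝ 2 (near k C) z := fun z hz =>
    (sm_self (sm_of_sub (ex_near hk C (by decide) (Or.inr hz.2)) hz)).of_le two_le
  refine ⟨U, ?_, ?_, ?_⟩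
  · intro x y l hl
    have e1 : near k C (x + l, y) = near k C (x, y) := by
      unfold near chi
      simp only
      rw [red_add hl]
    have e2 : far G A (x + l, y) = far G A (x, y) := by
      unfold far
      simp only
      rw [hG.per x l hl]
    rw [hU]
    simp only [hcm]
    rw [e1, e2]
  · intro j z hz
    by_cases hA' : onA j z
    · obtain ⟨hj, hy⟩ := hA'
      refine ex_congr (ex_near hk C hj hz) ?_
      have hc : ContinuousAt (fun t => ‖(tr j t).2‖) z :=
        (continuousAt_snd.comp (tr_smooth hj z).continuousAt).norm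
      filter_upwards [hc.eventually_lt_const (by simpa only [hy, norm_zero] using h1)] with t ht hW
      rw [U0 _ hW ht]
    · refine ex_off (fun z hz2 => ?_) (fun z hz2 => ?_) hA'
      · have hnA : ¬ onA 0 z := fun h => hz2 h.2
        have e1 := ex_far hG A hnA
        rcases lt_or_ge ‖z.2‖ η with h3 | h3
        · have e2 := ex_near (j := 0) hk C (by decide) (Or.inr hz2 : z ∈ V 0)
          refine ex_congr (ex_add e1 (ex_m hm (ex_sub e2 e1))) ?_
          have hc : ContinuousAt (fun t : E => ‖t.2‖) z := by fun_prop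
          filter_upwards [hc.eventually_lt_const h3] with t ht hW
          show U t - Phi t = _
          rw [U1 t ht, hcm]
          have : near k C (tr 0 t) - Phi (tr 0 t) - (far G A (tr 0 t) - Phi (tr 0 t)) =
            near k C t - far G A t := by
            show near k C t - Phi t - (far G A t - Phi t) = _
            ring
          rw [this]
          show far G A t + m (near k C t - far G A t) - Phi t =
            (far G A t - Phi t) + m (near k C t - far G A t)
          ring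
        · refine ex_congr e1 ?_
          have hc : ContinuousAt (fun t : E => ‖t.2‖) z := by fun_prop
          filter_upwards [hc.eventually_const_lt (lt_of_lt_of_le h2 h3)] with t ht hW
          show U t - Phi t = far G A t - Phi t
          rw [U2 t hW ht]
      · have hnA : ¬ onA 1 z := fun h => h.1 rfl
        refine ex_congr (ex_far hG A hnA) ?_
        have hc : ContinuousAt (fun t : E => ‖t.2‖) z := by fun_prop
        have h0 : ‖z.2‖ < η2⁻¹ := by
          rw [hz2, norm_zero]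
          have : 0 < η2 := by linarith
          positivity
        filter_upwards [hc.eventually_lt_const h0] with t ht hW
        have h3 : η2 < ‖(tr 1 t).2‖ := by
          show η2 < ‖t.2⁻¹‖
          have h4 : t.2 ≠ 0 := by
            intro h
            apply hW.2
            show t.2⁻¹ = 0
            rw [h, inv_zero]
          rw [norm_inv]
          exact (lt_inv_comm₀ (norm_pos_iff.2 h4) (by linarith)).1 ht
        rw [U2 _ hW h3]
  · intro z hz v
    rcases lt_or_ge ‖z.2‖ η with h3 | h3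
    · have e1 : U =ᶠ[𝓝 z] cm := by
        have hc : ContinuousAt (fun t : E => ‖t.2‖) z := by fun_prop
        filter_upwards [hc.eventually_lt_const h3] with t ht
        exact U1 t ht
      rw [lv_congr e1]
      refine hmm (near k C) (far G A) z v _ (nearC z hz) (farC z hz) (hN z hz h3 v) ?_
      have h5 := nm_nonneg z v
      have h6 : 0 ≤ lev (far G A) z v := by
        have h7 := lv_R hG (5 / 2) A zero_le_one (by norm_num : (0 : ℝ) ≤ 1 / 2) hz (v := v)
        have h8 : far G A = fun t => ((5 / 2 * Real.log (‖t.2‖ ^ 2) +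
          1 / 2 * Real.log (1 + ‖t.2‖ ^ 2)) + (-1) * G t.1) + A := by
          funext t
          unfold far
          ring
        rw [h8]
        exact h7
      have h9 : 0 ≤ ε * nm z v := by positivity
      linarith
    · have e1 : U =ᶠ[𝓝 z] far G A := by
        have hc : ContinuousAt (fun t : E => ‖t.2‖) z := by fun_prop
        filter_upwards [hc.eventually_const_lt (lt_of_lt_of_le h2 h3), W_nhds hz] with t ht hW
        exact U2 t hW ht
      rw [lv_congr e1]
      have h5 := nm_nonneg z v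
      have h6 : 0 ≤ lev (far G A) z v := by
        have h7 := lv_R hG (5 / 2) A zero_le_one (by norm_num : (0 : ℝ) ≤ 1 / 2) hz (v := v)
        have h8 : far G A = fun t => ((5 / 2 * Real.log (‖t.2‖ ^ 2) +
          1 / 2 * Real.log (1 + ‖t.2‖ ^ 2)) + (-1) * G t.1) + A := by
          funext t
          unfold far
          ring
        rw [h8]
        exact h7
      have h9 : 0 ≤ ε * nm z v := by positivity
      linarith

end Pool.Agent.Y590.SPK
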