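import Pool.Agent.Y375.SP.Lat
import Pool.Agent.Y625.SP.Lev

set_option autoImplicit false

/-!
# Calculus of smooth extensions (project SP of helper184)
-/

open Set Topology Filter
open scoped ContDiff

namespace Pool.Agent.Y590.SPK

open Pool.Agent.Y184.SP Pool.Agent.Y375.SP

theorem two_le : (2 : WithTop ℕ∞) ≤ ∞ := WithTop.coe_le_coe.2 (le_top : (2 : ℕ∞) ≤ ⊤)

/-! ### Smooth functions near a point -/

theorem sm_self {f : E → ℝ} {z : E} (h : SmAt f z) : ContDiffAt ℝ ∞ f z := h.self_of_nhds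

theorem sm_cont {f : E → ℝ} {z : E} (h : SmAt f z) : ContinuousAt f z := (sm_self h).continuousAt

theorem sm_of {f : E → ℝ} (h : ContDiff ℝ ∞ f) (z : E) : SmAt f z :=
  Eventually.of_forall fun _ => h.contDiffAt

theorem sm_const (a : ℝ) (z : E) : SmAt (fun _ => a) z := sm_of contDiff_const z

theorem sm_add {f g : E → ℝ} {z : E} (hf : SmAt f z) (hg : SmAt g z) :
    SmAt (fun t => f t + g t) z := by
  filter_upwards [hf, hg] with z' h1 h2
  exact h1.add h2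

theorem sm_sub {f g : E → ℝ} {z : E} (hf : SmAt f z) (hg : SmAt g z) :
    SmAt (fun t => f t - g t) z := by
  filter_upwards [hf, hg] with z' h1 h2
  exact h1.sub h2

theorem sm_mul {f g : E → ℝ} {z : E} (hf : SmAt f z) (hg : SmAt g z) :
    SmAt (fun t => f t * g t) z := by
  filter_upwards [hf, hg] with z' h1 h2
  exact h1.mul h2

theorem sm_div {f g : E → ℝ} {z : E} (hf : SmAt f z) (hg : SmAt g z) (h0 : g z ≠ 0) :
    SmAt (fun t => f t / g t) z := by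
  filter_upwards [hf, hg, (sm_cont hg).eventually_ne h0] with z' h1 h2 h3
  exact h1.div h2 h3

theorem sm_log {f : E → ℝ} {z : E} (hf : SmAt f z) (h0 : f z ≠ 0) :
    SmAt (fun t => Real.log (f t)) z := by
  filter_upwards [hf, (sm_cont hf).eventually_ne h0] with z' h1 h2
  exact h1.log h2

theorem sm_comp {f : E → ℝ} {T : E → E} {z : E} (hT : ∀ᶠ t in 𝓝 z, ContDiffAt ℝ ∞ T t)
    (hf : SmAt f (T z)) : SmAt (fun t => f (T t)) z := by
  have hc : ContinuousAt T z := hT.self_of_nhds.continuousAt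
  filter_upwards [hT, hc.eventually hf] with z' h1 h2
  exact h2.comp z' h1

theorem sm_fst {F : ℂ → ℝ} {z : E} (hF : ∀ᶠ x in 𝓝 z.1, ContDiffAt ℝ ∞ F x) :
    SmAt (fun t => F t.1) z := by
  filter_upwards [(continuous_fst.tendsto z).eventually hF] with z' h1
  exact h1.comp z' contDiffAt_fst

theorem sm_m {m : ℝ → ℝ} (hm : ContDiff ℝ ∞ m) {f : E → ℝ} {z : E} (hf : SmAt f z) :
    SmAt (fun t => m (f t)) z := by
  filter_upwards [hf] with z' h1
  exact hm.contDiffAt.comp z' h1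

theorem sm_congr {f g : E → ℝ} {z : E} (hf : SmAt f z) (h : g =ᶠ[𝓝 z] f) : SmAt g z := by
  filter_upwards [hf, h.eventuallyEq_nhds] with z' h1 h2
  exact h1.congr_of_eventuallyEq h2

theorem cd_nsq {f : E → ℂ} (hf : ContDiff ℝ ∞ f) : ContDiff ℝ ∞ fun z => ‖f z‖ ^ 2 :=
  hf.norm_sq ℝ

/-! ### Extensions -/

variable {j : Fin 5} {z : E} {u v : E → ℝ}

theorem ex_sm (h : SmAt u z) : ExtAt u 0 z := ⟨u, h, Eventually.of_forall fun _ _ => rfl⟩

theorem ex_const (a : ℝ) : ExtAt (fun _ => a) j z :=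
  ⟨fun _ => a, sm_const a z, Eventually.of_forall fun _ _ => rfl⟩

theorem ex_add (hu : ExtAt u j z) (hv : ExtAt v j z) : ExtAt (fun t => u t + v t) j z := by
  obtain ⟨f, hf, hfu⟩ := hu
  obtain ⟨g, hg, hgv⟩ := hv
  refine ⟨fun t => f t + g t, sm_add hf hg, ?_⟩
  filter_upwards [hfu, hgv] with t h1 h2 ht
  rw [h1 ht, h2 ht]

theorem ex_sub (hu : ExtAt u j z) (hv : ExtAt v j z) : ExtAt (fun t => u t - v t) j z := by
  obtain ⟨f, hf, hfu⟩ := hu
  obtain ⟨g, hg, hgv⟩ := hv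
  refine ⟨fun t => f t - g t, sm_sub hf hg, ?_⟩
  filter_upwards [hfu, hgv] with t h1 h2 ht
  rw [h1 ht, h2 ht]

theorem ex_mul (hu : ExtAt u j z) (hv : ExtAt v j z) : ExtAt (fun t => u t * v t) j z := by
  obtain ⟨f, hf, hfu⟩ := hu
  obtain ⟨g, hg, hgv⟩ := hv
  refine ⟨fun t => f t * g t, sm_mul hf hg, ?_⟩
  filter_upwards [hfu, hgv] with t h1 h2 ht
  rw [h1 ht, h2 ht]

theorem ex_m {m : ℝ → ℝ} (hm : ContDiff ℝ ∞ m) (hu : ExtAt u j z) :
    ExtAt (fun t => m (u t)) j z := by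
  obtain ⟨f, hf, hfu⟩ := hu
  refine ⟨fun t => m (f t), sm_m hm hf, ?_⟩
  filter_upwards [hfu] with t h1 ht
  rw [h1 ht]

theorem ex_congr (hu : ExtAt u j z) (h : ∀ᶠ t in 𝓝 z, tr j t ∈ W → v (tr j t) = u (tr j t)) :
    ExtAt v j z := by
  obtain ⟨f, hf, hfu⟩ := hu
  refine ⟨f, hf, ?_⟩
  filter_upwards [hfu, h] with t h1 h2 ht
  rw [h1 ht, h2 ht]

theorem ex_congr' (hu : ExtAt u j z) (h : ∀ t ∈ W, v t = u t) : ExtAt v j z :=
  ex_congr hu (Eventually.of_forall fun _ ht => h _ ht)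

theorem ex_tr (hT : ∀ᶠ t in 𝓝 z, ContDiffAt ℝ ∞ (tr j) t) (h : ExtAt u 0 (tr j z)) :
    ExtAt u j z := by
  obtain ⟨f, hf, hfu⟩ := h
  refine ⟨fun t => f (tr j t), sm_comp hT hf, ?_⟩
  have hc : ContinuousAt (tr j) z := hT.self_of_nhds.continuousAt
  exact hc.eventually hfu

theorem tr_smooth (hj : j ≠ 1) (z : E) : ContDiffAt ℝ ∞ (tr j) z := by
  apply ContDiff.contDiffAt
  fin_cases j
  · exact contDiff_id
  · exact absurd rfl hj
  · show ContDiff ℝ ∞ fun z : E => (z.1 * z.2, z.2 + z.1 * z.2)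
    exact (contDiff_fst.mul contDiff_snd).prodMk
      (contDiff_snd.add (contDiff_fst.mul contDiff_snd))
  · show ContDiff ℝ ∞ fun z : E => (z.1 * z.2, z.1 * z.2 ^ 2 + z.1 * z.2)
    exact (contDiff_fst.mul contDiff_snd).prodMk
      ((contDiff_fst.mul (contDiff_snd.pow 2)).add (contDiff_fst.mul contDiff_snd))
  · show ContDiff ℝ ∞ fun z : E => (z.1, z.1 ^ 2 * z.2 + z.1)
    exact contDiff_fst.prodMk (((contDiff_fst.pow 2).mul contDiff_snd).add contDiff_fst)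

theorem tr1_smooth (h : z.2 ≠ 0) : ∀ᶠ t in 𝓝 z, ContDiffAt ℝ ∞ (tr 1) t := by
  have h1 : ∀ᶠ t : E in 𝓝 z, t.2 ≠ 0 := (continuous_snd.continuousAt (x := z)).eventually_ne h
  filter_upwards [h1] with t ht
  show ContDiffAt ℝ ∞ (fun z : E => (z.1, z.2⁻¹)) t
  exact contDiffAt_fst.prodMk (contDiffAt_snd.inv ht)

/-- a function on `W` which extends at the points of the first two charts off `y = 0` extends at
all points off `y = 0` -/
theorem ex_off (h0 : ∀ z : E, z.2 ≠ 0 → ExtAt u 0 z) (h1 : ∀ z : E, z.2 = 0 → ExtAt u 1 z)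
    (hz : ¬ onA j z) : ExtAt u j z := by
  by_cases hj : j = 1
  · subst hj
    by_cases hz2 : z.2 = 0
    · exact h1 z hz2
    · exact ex_tr (tr1_smooth hz2) (h0 _ (inv_ne_zero hz2))
  · have hy : (tr j z).2 ≠ 0 := fun h => hz ⟨hj, h⟩
    exact ex_tr (Eventually.of_forall fun t => tr_smooth hj t) (h0 _ hy)

/-! ### The two cases -/

theorem Lam_open {x : ℂ} (h : x ∉ Lam) : ∀ᶠ t in 𝓝 x, t ∉ Lam :=
  Lam_closed.isOpen_compl.mem_nhds h

theorem near_eq {x l : ℂ} (h : ‖x - l‖ < 1 / 2) : ∀ᶠ t in 𝓝 x, ‖t - l‖ < 1 / 2 := by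
  have hc : ContinuousAt (fun t : ℂ => ‖t - l‖) x := by fun_prop
  exact hc.eventually_lt_const h

theorem chi_eq {x l : ℂ} (hl : l ∈ Lam) (h : ‖x - l‖ < 1 / 2) : chi x = bump (x - l) := by
  unfold chi
  rw [red_eq hl h]

theorem chi_far {x : ℂ} (h : 1 / 2 ≤ ‖red x‖) : ∀ᶠ t in 𝓝 x, chi t = 0 := by
  have h1 : ∀ᶠ t in 𝓝 x, 1 / 4 < ‖red t‖ :=
    norm_red_cont.continuousAt.eventually_const_lt (by linarith)
  exact h1.mono fun t ht => chi_zero ht.le

/-- either near a lattice point or `chi = 0` near the point -/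
theorem cases_x (x : ℂ) : (∃ l ∈ Lam, ‖x - l‖ < 1 / 2) ∨ (x ∉ Lam ∧ ∀ᶠ t in 𝓝 x, chi t = 0) := by
  rcases lt_or_ge ‖red x‖ (1 / 2) with h | h
  · refine Or.inl ⟨x - red x, sub_red x, ?_⟩
    rwa [sub_sub_cancel]
  · refine Or.inr ⟨fun hx => ?_, chi_far h⟩
    rw [red_eq_zero.2 hx, norm_zero] at h
    linarith

theorem tr_fst_cont (j : Fin 5) (z : E) : ContinuousAt (fun t => (tr j t).1) z := by
  by_cases hj : j = 1
  · subst hj
    exact continuousAt_fst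
  · exact continuousAt_fst.comp (tr_smooth hj z).continuousAt

/-- products with `chi` far from the lattice -/
theorem ex_chi_far (hx : ∀ᶠ t in 𝓝 (tr j z).1, chi t = 0) (u : E → ℝ) :
    ExtAt (fun t => chi t.1 * u t) j z := by
  refine ex_congr (ex_const 0) ?_
  filter_upwards [(tr_fst_cont j z).eventually hx] with t ht _
  rw [ht, zero_mul]

theorem bump_sm (l : ℂ) (z : E) : SmAt (fun t => bump (t.1 - l)) z := by
  refine sm_fst (F := fun x => bump (x - l)) (Eventually.of_forall fun x => ?_)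
  exact (bump.contDiff (n := ⊤)).contDiffAt.comp x (contDiffAt_id.sub contDiffAt_const)

/-! ### The pieces -/

theorem y_sm (z : E) : SmAt (fun t => 1 + ‖t.2‖ ^ 2) z :=
  sm_of (contDiff_const.add (cd_nsq contDiff_snd)) z

theorem ly_sm (z : E) : SmAt (fun t => Real.log (1 + ‖t.2‖ ^ 2)) z :=
  sm_log (y_sm z) (by positivity)

theorem lyy_sm {z : E} (h : z.2 ≠ 0) : SmAt (fun t => Real.log (‖t.2‖ ^ 2)) z :=
  sm_log (sm_of (cd_nsq contDiff_snd) z) (by positivity)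

/-- `log |y|² - log (1 + |y|²)` -/
noncomputable def P1 (z : E) : ℝ := Real.log (‖z.2‖ ^ 2) - Real.log (1 + ‖z.2‖ ^ 2)

theorem ex_P1 (hz : ¬ onA j z) : ExtAt P1 j z := by
  refine ex_off (fun z hz => ex_sm (sm_sub (lyy_sm hz) (ly_sm z))) (fun z _ => ?_) hz
  refine ⟨fun t => 0 - Real.log (1 + ‖t.2‖ ^ 2), sm_sub (sm_const 0 z) (ly_sm z), ?_⟩
  refine Eventually.of_forall fun t ht => ?_
  have h2 : t.2 ≠ 0 := by
    intro h
    apply ht.2
    show t.2⁻¹ = 0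
    rw [h, inv_zero]
  have hn : 0 < ‖t.2‖ := norm_pos_iff.2 h2
  show 0 - Real.log (1 + ‖t.2‖ ^ 2) = Real.log (‖t.2⁻¹‖ ^ 2) - Real.log (1 + ‖t.2⁻¹‖ ^ 2)
  have e1 : 1 + ‖t.2⁻¹‖ ^ 2 = ‖t.2⁻¹‖ ^ 2 * (1 + ‖t.2‖ ^ 2) := by
    rw [norm_inv]
    field_simp
    ring
  rw [e1, Real.log_mul (by rw [norm_inv]; positivity) (by positivity)]
  ring

/-- `G - chi log |x|²` -/
noncomputable def P2 (G : ℂ → ℝ) (z : E) : ℝ := G z.1 - chi z.1 * Real.log (‖red z.1‖ ^ 2)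

theorem cutlog_sm (t : ℂ) :
    ContDiffAt ℝ ∞ (fun t : ℂ => (1 - bump t) * Real.log (‖t‖ ^ 2)) t := by
  by_cases ht : t = 0
  · subst ht
    have h1 : (fun t : ℂ => (1 - bump t) * Real.log (‖t‖ ^ 2)) =ᶠ[𝓝 0] fun _ => 0 := by
      have h2 : ∀ᶠ t : ℂ in 𝓝 0, t ∈ Metric.closedBall (0 : ℂ) (1 / 8) :=
        Metric.closedBall_mem_nhds _ (by norm_num)
      filter_upwards [h2] with t ht
      rw [bump.one_of_mem_closedBall ht, sub_self, zero_mul]
    exact contDiffAt_const.congr_of_eventuallyEq h1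
  · have h0 : ‖t‖ ^ 2 ≠ 0 := by
      have := norm_pos_iff.2 ht
      positivity
    exact (contDiffAt_const.sub (bump.contDiff (n := ⊤)).contDiffAt).mul
      ((contDiffAt_id.norm_sq ℝ).log h0)

theorem P2_loc {G h : ℂ → ℝ} {c : ℝ} (hG : IsGreen G h c) {l : ℂ} (hl : l ∈ Lam) {x : ℂ}
    (hx : ‖x - l‖ < 1 / 2) (hx0 : x ∉ Lam) :
    G x - chi x * Real.log (‖red x‖ ^ 2) =
      h (x - l) + (1 - bump (x - l)) * Real.log (‖x - l‖ ^ 2) := by
  have h1 : x - l ≠ 0 := by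
    intro h
    rw [sub_eq_zero.1 h] at hx0
    exact hx0 hl
  have h2 := hG.per (x - l) l hl
  rw [sub_add_cancel] at h2
  rw [h2, hG.eq _ hx h1, chi_eq hl hx, red_eq hl hx]
  ring

theorem tr_fst_sm (j : Fin 5) (z : E) : ContDiffAt ℝ ∞ (fun t => (tr j t).1) z := by
  by_cases hj : j = 1
  · subst hj
    exact contDiffAt_fst
  · exact contDiffAt_fst.comp z (tr_smooth hj z)

theorem ex_fst {q : ℂ → ℝ} {u : E → ℝ} (hq : ∀ᶠ x in 𝓝 (tr j z).1, ContDiffAt ℝ ∞ q x)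
    (h : ∀ᶠ x in 𝓝 (tr j z).1, x ∉ Lam → ∀ y, u (x, y) = q x) : ExtAt u j z := by
  refine ⟨fun t => q (tr j t).1, ?_, ?_⟩
  · filter_upwards [(tr_fst_cont j z).eventually hq] with t ht
    exact ht.comp t (tr_fst_sm j t)
  · filter_upwards [(tr_fst_cont j z).eventually h] with t ht hW
    exact (ht hW.1 (tr j t).2).symm

theorem ex_P2 {G h : ℂ → ℝ} {c : ℝ} (hG : IsGreen G h c) : ExtAt (P2 G) j z := by
  rcases cases_x (tr j z).1 with ⟨l, hl, hx⟩ | ⟨hL, hx⟩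
  · refine ex_fst (q := fun x => h (x - l) + (1 - bump (x - l)) * Real.log (‖x - l‖ ^ 2)) ?_ ?_
    · filter_upwards [near_eq hx] with x hx'
      have h1 : ContDiffAt ℝ ∞ (fun x : ℂ => x - l) x := contDiffAt_id.sub contDiffAt_const
      have h2 : ContDiffAt ℝ ∞ (fun x => h (x - l)) x := (hG.smooth_h _ hx').comp x h1
      have h3 : ContDiffAt ℝ ∞ (fun x => (1 - bump (x - l)) * Real.log (‖x - l‖ ^ 2)) x :=
        ContDiffAt.comp (g := fun t : ℂ => (1 - bump t) * Real.log (‖t‖ ^ 2)) x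
          (cutlog_sm (x - l)) h1
      exact h2.add h3
    · filter_upwards [near_eq hx] with x hx' hL y
      exact P2_loc hG hl hx' hL
  · refine ex_fst (q := G) ?_ ?_
    · filter_upwards [Lam_open hL] with x hx'
      exact hG.smooth x hx'
    · filter_upwards [hx] with x hx' _ y
      show G x - chi x * _ = G x
      rw [hx', zero_mul, sub_zero]

/-- the functions `L₁`, `L₂` -/
noncomputable def Lg (p : ℂ → ℂ) (z : E) : ℝ :=
  Real.log ((‖z.2 - red z.1‖ ^ 2 + ‖p (red z.1)‖ ^ 2) / (1 + ‖z.2‖ ^ 2))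

theorem L1_eq (z : E) : L1 z = Lg (fun t => t) z := by
  unfold L1 Lg
  rw [add_comm]

theorem L2_eq (z : E) : L2 z = Lg (fun t => t ^ 2) z := by
  unfold L2 Lg
  rw [norm_pow]
  congr 3
  ring

theorem add_sq_ne {a b : ℂ} (h : a ≠ 0 ∨ b ≠ 0) {k : ℝ} (hk : 0 < k) :
    ‖a‖ ^ 2 + k * ‖b‖ ^ 2 ≠ 0 := by
  rcases h with h | h
  · have := norm_pos_iff.2 h
    positivity
  · have := norm_pos_iff.2 h
    positivity

theorem ex_Lg {p : ℂ → ℂ} (hp : ContDiff ℝ ∞ p) (hp0 : ∀ t, p t = 0 → t = 0)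
    (hz : ¬ onA j z) : ExtAt (fun t => chi t.1 * Lg p t) j z := by
  refine ex_off (fun z hz => ?_) (fun z hz => ?_) hz
  · rcases cases_x z.1 with ⟨l, hl, hx⟩ | ⟨hL, hx⟩
    · have hN : ContDiff ℝ ∞ (fun t : E => ‖t.2 - (t.1 - l)‖ ^ 2 + ‖p (t.1 - l)‖ ^ 2) :=
        (cd_nsq (contDiff_snd.sub (contDiff_fst.sub contDiff_const))).add
          (cd_nsq (hp.comp (contDiff_fst.sub contDiff_const)))
      have h0 : ‖z.2 - (z.1 - l)‖ ^ 2 + ‖p (z.1 - l)‖ ^ 2 ≠ 0 := by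
        have := add_sq_ne (a := z.2 - (z.1 - l)) (b := p (z.1 - l)) (k := 1) ?_ one_pos
        · rwa [one_mul] at this
        · by_contra hc
          push Not at hc
          have h1 := hp0 _ hc.2
          rw [h1, sub_zero] at hc
          exact hz hc.1
      refine ⟨fun t => bump (t.1 - l) *
        Real.log ((‖t.2 - (t.1 - l)‖ ^ 2 + ‖p (t.1 - l)‖ ^ 2) / (1 + ‖t.2‖ ^ 2)),
        sm_mul (bump_sm l z) (sm_log (sm_div (sm_of hN z) (y_sm z) (by positivity)) ?_), ?_⟩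
      · exact div_ne_zero h0 (by positivity)
      · filter_upwards [(tr_fst_cont 0 z).eventually (near_eq hx)] with t ht _
        have ht' : ‖t.1 - l‖ < 1 / 2 := ht
        show _ = chi t.1 * Lg p t
        unfold Lg
        rw [chi_eq hl ht', red_eq hl ht']
    · exact ex_chi_far (j := 0) (z := z) hx _
  · rcases cases_x z.1 with ⟨l, hl, hx⟩ | ⟨hL, hx⟩
    · have hN : ContDiff ℝ ∞ (fun t : E => ‖1 - (t.1 - l) * t.2‖ ^ 2 +
          ‖p (t.1 - l)‖ ^ 2 * ‖t.2‖ ^ 2) :=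
        (cd_nsq (contDiff_const.sub ((contDiff_fst.sub contDiff_const).mul contDiff_snd))).add
          ((cd_nsq (hp.comp (contDiff_fst.sub contDiff_const))).mul (cd_nsq contDiff_snd))
      have h0 : ‖1 - (z.1 - l) * z.2‖ ^ 2 + ‖p (z.1 - l)‖ ^ 2 * ‖z.2‖ ^ 2 ≠ 0 := by
        rw [hz]; simp
      refine ⟨fun t => bump (t.1 - l) * Real.log ((‖1 - (t.1 - l) * t.2‖ ^ 2 +
        ‖p (t.1 - l)‖ ^ 2 * ‖t.2‖ ^ 2) / (1 + ‖t.2‖ ^ 2)),
        sm_mul (bump_sm l z) (sm_log (sm_div (sm_of hN z) (y_sm z) (by positivity)) ?_), ?_⟩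
      · exact div_ne_zero h0 (by positivity)
      · filter_upwards [(tr_fst_cont 1 z).eventually (near_eq hx)] with t ht hW
        have ht' : ‖t.1 - l‖ < 1 / 2 := ht
        have h2 : t.2 ≠ 0 := by
          intro h
          apply hW.2
          show t.2⁻¹ = 0
          rw [h, inv_zero]
        show _ = chi t.1 * Lg p (t.1, t.2⁻¹)
        unfold Lg
        simp only
        rw [chi_eq hl ht', red_eq hl ht']
        congr 2
        have hn : 0 < ‖t.2‖ := norm_pos_iff.2 h2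
        have e1 : t.2⁻¹ - (t.1 - l) = t.2⁻¹ * (1 - (t.1 - l) * t.2) := by
          field_simp
        rw [e1, norm_mul, norm_inv]
        field_simp
        ring
    · exact ex_chi_far (j := 1) (z := z) hx _

theorem ex_P3 (hz : ¬ onA j z) : ExtAt (fun t => chi t.1 * L2 t) j z := by
  have h := ex_Lg (p := fun t => t ^ 2) (contDiff_id.pow 2) (fun t ht => by simpa using ht) hz
  exact ex_congr' h fun t _ => by rw [L2_eq]

theorem ex_P4 (hz : ¬ onA j z) : ExtAt (fun t => chi t.1 * L1 t) j z := by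
  have h := ex_Lg (p := fun t => t) contDiff_id (fun t ht => ht) hz
  exact ex_congr' h fun t _ => by rw [L1_eq]

/-- the function `far - Phi` extends off `y = 0` -/
theorem ex_far {G h : ℂ → ℝ} {c : ℝ} (hG : IsGreen G h c) (A : ℝ) (hz : ¬ onA j z) :
    ExtAt (fun t => far G A t - Phi t) j z := by
  have h1 := ex_sub (ex_sub (ex_add (ex_mul (ex_const (5 / 2)) (ex_P1 hz)) (ex_const A))
    (ex_P2 hG)) (ex_P3 hz)
  refine ex_congr' h1 fun t _ => ?_
  unfold far Phi P1 P2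
  ring

/-! ### The function near the curve -/

/-- the main part of `near - Phi` -/
noncomputable def P5 (k : ℝ) (z : E) : ℝ :=
  chi z.1 * (Real.log (‖z.2 - red z.1‖ ^ 2 + k * ‖red z.1 ^ 2‖ ^ 2) -
    Real.log ((‖z.2 - red z.1‖ ^ 2 + 1 * ‖red z.1 ^ 2‖ ^ 2) / (1 + ‖z.2‖ ^ 2)))

theorem near_Phi {k : ℝ} (hk : 0 < k) (C : ℝ) {t : E} (ht : t ∈ W) :
    near k C t - Phi t = P5 k t + C * ‖t.2‖ ^ 2 - 3 * Real.log (1 + ‖t.2‖ ^ 2) := by
  unfold near Phi P5 L2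
  have hr : red t.1 ≠ 0 := red_ne ht.1
  have hn : 0 < ‖red t.1‖ := norm_pos_iff.2 hr
  have e1 : ‖t.2 - red t.1‖ ^ 2 + k * ‖red t.1 ^ 2‖ ^ 2 =
      (‖t.2 / red t.1 - 1‖ ^ 2 + k * ‖red t.1‖ ^ 2) * ‖red t.1‖ ^ 2 := by
    have : t.2 / red t.1 - 1 = (t.2 - red t.1) / red t.1 := by field_simp
    rw [this, norm_div, norm_pow]
    field_simp
  have e2 : ‖t.2 - red t.1‖ ^ 2 + 1 * ‖red t.1 ^ 2‖ ^ 2 =
      ‖t.2 - red t.1‖ ^ 2 + ‖red t.1‖ ^ 4 := by
    rw [norm_pow]; ring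
  rw [e1, e2, Real.log_mul (by positivity) (by positivity)]
  ring

theorem P5_chart {k : ℝ} {N : ℝ → E → ℝ} {M : E → ℝ} (hj : j ≠ 1)
    (hN : SmAt (N k) z) (hN1 : SmAt (N 1) z) (h0 : N k z ≠ 0) (h1 : N 1 z ≠ 0)
    (hx : ‖(tr j z).1‖ < 1 / 8)
    (hM : ∀ t, tr j t ∈ W → M t ≠ 0)
    (h : ∀ t, ∀ κ, ‖(tr j t).2 - (tr j t).1‖ ^ 2 + κ * ‖(tr j t).1 ^ 2‖ ^ 2 = M t * N κ t) :
    ExtAt (P5 k) j z := by
  have hT : ∀ᶠ t in 𝓝 z, ContDiffAt ℝ ∞ (tr j) t := Eventually.of_forall fun t => tr_smooth hj t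
  refine ⟨fun t => Real.log (N k t) - (Real.log (N 1 t) - Real.log (1 + ‖(tr j t).2‖ ^ 2)),
    sm_sub (sm_log hN h0) (sm_sub (sm_log hN1 h1) (sm_comp hT (ly_sm _))), ?_⟩
  have e1 : ∀ᶠ t in 𝓝 z, ‖(tr j t).1‖ < 1 / 8 :=
    (tr_fst_cont j z).norm.eventually_lt_const hx
  filter_upwards [e1, (sm_cont hN).eventually_ne h0, (sm_cont hN1).eventually_ne h1]
    with t ht h2 h3 hW
  have hr : red (tr j t).1 = (tr j t).1 := red_eq_self (by linarith)
  have hc : chi (tr j t).1 = 1 := chi_one (by rw [hr]; exact ht.le)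
  unfold P5
  rw [hc, hr, h t k, h t 1, one_mul, Real.log_mul (hM t hW) h2,
    Real.log_div (mul_ne_zero (hM t hW) h3) (by positivity), Real.log_mul (hM t hW) h3]
  ring

theorem ex_P5 {k : ℝ} (hk : 0 < k) (hj : j ≠ 1) (hz : z ∈ V j) : ExtAt (P5 k) j z := by
  have hj' : j = 0 ∨ j = 2 ∨ j = 3 ∨ j = 4 := by
    fin_cases j
    · exact Or.inl rfl
    · exact absurd rfl hj
    · exact Or.inr (Or.inl rfl)
    · exact Or.inr (Or.inr (Or.inl rfl))
    · exact Or.inr (Or.inr (Or.inr rfl))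
  rcases hj' with rfl | rfl | rfl | rfl
  · rcases cases_x z.1 with ⟨l, hl, hx⟩ | ⟨hL, hx⟩
    · have hN : ∀ κ : ℝ, ContDiff ℝ ∞ (fun t : E => ‖t.2 - (t.1 - l)‖ ^ 2 +
          κ * ‖(t.1 - l) ^ 2‖ ^ 2) := fun κ =>
        (cd_nsq (contDiff_snd.sub (contDiff_fst.sub contDiff_const))).add
          (contDiff_const.mul (cd_nsq ((contDiff_fst.sub contDiff_const).pow 2)))
      have h0 : ∀ κ : ℝ, 0 < κ → ‖z.2 - (z.1 - l)‖ ^ 2 + κ * ‖(z.1 - l) ^ 2‖ ^ 2 ≠ 0 := by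
        intro κ hκ
        refine add_sq_ne ?_ hκ
        by_contra hc
        push Not at hc
        have h1 : z.1 - l = 0 := by simpa using hc.2
        rw [h1, sub_zero] at hc
        have hz' : z.1 ∉ Lam ∨ z.2 ≠ 0 := hz
        rcases hz' with h2 | h2
        · rw [sub_eq_zero.1 h1] at h2
          exact h2 hl
        · exact h2 hc.1
      refine ⟨fun t => bump (t.1 - l) *
        (Real.log (‖t.2 - (t.1 - l)‖ ^ 2 + k * ‖(t.1 - l) ^ 2‖ ^ 2) -
        Real.log ((‖t.2 - (t.1 - l)‖ ^ 2 + 1 * ‖(t.1 - l) ^ 2‖ ^ 2) / (1 + ‖t.2‖ ^ 2))),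
        sm_mul (bump_sm l z) (sm_sub (sm_log (sm_of (hN k) z) (h0 k hk))
          (sm_log (sm_div (sm_of (hN 1) z) (y_sm z) (by positivity)) ?_)), ?_⟩
      · exact div_ne_zero (h0 1 one_pos) (by positivity)
      · filter_upwards [(tr_fst_cont 0 z).eventually (near_eq hx)] with t ht _
        have ht' : ‖t.1 - l‖ < 1 / 2 := ht
        show _ = P5 k t
        unfold P5
        rw [chi_eq hl ht', red_eq hl ht']
    · exact ex_chi_far (j := 0) (z := z) hx _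
  · refine P5_chart (N := fun κ t => 1 + κ * ‖t.1 ^ 2 * t.2‖ ^ 2) (M := fun t => ‖t.2‖ ^ 2) hj
      (sm_of (contDiff_const.add (contDiff_const.mul (cd_nsq
        ((contDiff_fst.pow 2).mul contDiff_snd)))) z)
      (sm_of (contDiff_const.add (contDiff_const.mul (cd_nsq
        ((contDiff_fst.pow 2).mul contDiff_snd)))) z) (by positivity) (by positivity) hz.1 ?_ ?_
    · intro t ht h0
      have h1 : t.2 = 0 := by simpa using h0
      apply ht.2
      show t.2 + t.1 * t.2 = 0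
      rw [h1]; simp
    · intro t κ
      show ‖t.2 + t.1 * t.2 - t.1 * t.2‖ ^ 2 + κ * ‖(t.1 * t.2) ^ 2‖ ^ 2 =
        ‖t.2‖ ^ 2 * (1 + κ * ‖t.1 ^ 2 * t.2‖ ^ 2)
      rw [add_sub_cancel_right]
      simp only [norm_mul, norm_pow]
      ring
  · refine P5_chart (N := fun κ t => 1 + κ * ‖t.1‖ ^ 2) (M := fun t => ‖t.1 * t.2 ^ 2‖ ^ 2) hj
      (sm_of (contDiff_const.add (contDiff_const.mul (cd_nsq contDiff_fst))) z)
      (sm_of (contDiff_const.add (contDiff_const.mul (cd_nsq contDiff_fst))) z)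
      (by positivity) (by positivity) hz.1 ?_ ?_
    · intro t ht h0
      have h1 : t.1 = 0 ∨ t.2 = 0 := by simpa using h0
      apply ht.2
      show t.1 * t.2 ^ 2 + t.1 * t.2 = 0
      rcases h1 with h1 | h1
      · rw [h1]; simp
      · rw [h1]; simp
    · intro t κ
      show ‖t.1 * t.2 ^ 2 + t.1 * t.2 - t.1 * t.2‖ ^ 2 + κ * ‖(t.1 * t.2) ^ 2‖ ^ 2 =
        ‖t.1 * t.2 ^ 2‖ ^ 2 * (1 + κ * ‖t.1‖ ^ 2)
      rw [add_sub_cancel_right]
      simp only [norm_mul, norm_pow]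
      ring
  · refine P5_chart (N := fun κ t => ‖t.2‖ ^ 2 + κ) (M := fun t => ‖t.1 ^ 2‖ ^ 2) hj
      (sm_of ((cd_nsq contDiff_snd).add contDiff_const) z)
      (sm_of ((cd_nsq contDiff_snd).add contDiff_const) z)
      (by positivity) (by positivity) hz.1 ?_ ?_
    · intro t ht h0
      have h1 : t.1 = 0 := by simpa using h0
      apply ht.1
      show t.1 ∈ Lam
      rw [h1]
      exact Lam_zero
    · intro t κ
      show ‖t.1 ^ 2 * t.2 + t.1 - t.1‖ ^ 2 + κ * ‖t.1 ^ 2‖ ^ 2 =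
        ‖t.1 ^ 2‖ ^ 2 * (‖t.2‖ ^ 2 + κ)
      rw [add_sub_cancel_right]
      simp only [norm_mul, norm_pow]
      ring

/-- the function `near - Phi` extends outside of `y = ∞` -/
theorem ex_near {k : ℝ} (hk : 0 < k) (C : ℝ) (hj : j ≠ 1) (hz : z ∈ V j) :
    ExtAt (fun t => near k C t - Phi t) j z := by
  have h2 : ExtAt (fun t : E => C * ‖t.2‖ ^ 2) 0 (tr j z) :=
    ex_sm (sm_of (contDiff_const.mul (cd_nsq contDiff_snd)) _)
  have h3 : ExtAt (fun t : E => 3 * Real.log (1 + ‖t.2‖ ^ 2)) 0 (tr j z) :=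
    ex_sm (sm_mul (sm_const 3 _) (ly_sm _))
  have hT : ∀ᶠ t in 𝓝 z, ContDiffAt ℝ ∞ (tr j) t := Eventually.of_forall fun t => tr_smooth hj t
  have h1 := ex_sub (ex_add (ex_P5 hk hj hz) (ex_tr hT h2)) (ex_tr hT h3)
  exact ex_congr' h1 fun t ht => near_Phi hk C ht

end Pool.Agent.Y590.SPK
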